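import Mathlib

/-!
# Saturation numbers of joined disjoint hypergraph cliques

`r`-graphs on a vertex type `V` are finsets of `r`-element finsets of `V`.
We prove that for all `r ≥ 3` and `k ≥ r` the saturation number `Sat(H_{r,k}, n)` is at most a
constant times `n`; hence `Sat(H_{r,k}, n) / n ^ (r - 1)` converges (to `0`).
-/

namespace Pool.Agent.Results.MP_578b47_co.LinearSat

open Finset

/-- The hypergraph with edge set `G` (on the vertex type `V`) contains a copy of the hypergraph
with edge set `F` (on the vertex type `W`). -/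
def Contains {V W : Type} [DecidableEq V] (G : Finset (Finset V)) (F : Finset (Finset W)) : Prop :=
  ∃ f : W ↪ V, ∀ e ∈ F, e.map f ∈ G

/-- The edge set of `H_{r,k}`.  The vertices are the pairs `(i, j)` with `i < r`, `j < k`; the
`i`-th copy of the complete `r`-graph on `k` vertices consists of all `r`-sets of vertices
with first coordinate `i`, and the further edge is `{(0,0), (1,0), ..., (r-1,0)}`. -/
def Hrk (r k : ℕ) : Finset (Finset (Fin r × Fin k)) :=
  univ.filter fun e => e.card = r ∧ ((∃ i, ∀ p ∈ e, p.1 = i) ∨ ∀ p ∈ e, (p.2 : ℕ) = 0)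

/-- `G` is (the edge set of) an `F`-saturated `r`-graph on the vertex type `V`. -/
def Saturated {V W : Type} [DecidableEq V] (r : ℕ) (F : Finset (Finset W))
    (G : Finset (Finset V)) : Prop :=
  (∀ e ∈ G, e.card = r) ∧ ¬ Contains G F ∧
    ∀ e : Finset V, e.card = r → e ∉ G → Contains (insert e G) F

/-- The saturation number: the minimum number of edges of an `F`-saturated `r`-graph on
`n` vertices. -/
noncomputable def Sat {W : Type} (r : ℕ) (F : Finset (Finset W)) (n : ℕ) : ℕ :=
  sInf {m | ∃ G : Finset (Finset (Fin n)), Saturated r F G ∧ G.card = m}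

/-! ### The construction -/

/-- All `r`-sets inside the classes of `c`. -/
def blockG {n : ℕ} (r : ℕ) {ι : Type} [DecidableEq ι] (c : Fin n → ι) : Finset (Finset (Fin n)) :=
  univ.filter fun e => e.card = r ∧ ∀ x ∈ e, ∀ y ∈ e, c x = c y

lemma blockG_free {n r k : ℕ} (hr : 2 ≤ r) (hk : r ≤ k) {ι : Type} [DecidableEq ι]
    (c : Fin n → ι) (hc : ∀ i, (univ.filter fun v => c v = i).card < r * k) :
    ¬ Contains (blockG r c) (Hrk r k) := by
  rintro ⟨f, hf⟩
  -- same first coordinate implies same class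
  have h1 : ∀ (i : Fin r) (a b : Fin k), c (f (i, a)) = c (f (i, b)) := by
    intro i a b
    have hcard : ({a, b} : Finset (Fin k)).card ≤ r := (card_le_two).trans hr
    obtain ⟨t, ht1, ht2⟩ := exists_superset_card_eq hcard (by simpa using hk)
    let e : Finset (Fin r × Fin k) := t.map ⟨fun j => (i, j), fun x y h => by simpa using h⟩
    have he : e ∈ Hrk r k := by
      simp only [Hrk, mem_filter, mem_univ, true_and]
      refine ⟨by simp [e, ht2], Or.inl ⟨i, ?_⟩⟩
      intro p hp
      simp only [e, mem_map] at hp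
      obtain ⟨j, _, rfl⟩ := hp
      rfl
    have h2 := hf e he
    simp only [blockG, mem_filter, mem_univ, true_and] at h2
    apply h2.2
    · refine mem_map.2 ⟨(i, a), ?_, rfl⟩
      exact mem_map.2 ⟨a, ht1 (by simp), rfl⟩
    · refine mem_map.2 ⟨(i, b), ?_, rfl⟩
      exact mem_map.2 ⟨b, ht1 (by simp), rfl⟩
  have hk0 : 0 < k := by omega
  have hr0 : 0 < r := by omega
  -- the joining edge
  have h3 : ∀ i j : Fin r, c (f (i, ⟨0, hk0⟩)) = c (f (j, ⟨0, hk0⟩)) := by
    intro i j
    let e : Finset (Fin r × Fin k) :=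
      (univ : Finset (Fin r)).map ⟨fun j => (j, ⟨0, hk0⟩), fun x y h => by simpa using h⟩
    have he : e ∈ Hrk r k := by
      simp only [Hrk, mem_filter, mem_univ, true_and]
      refine ⟨by simp [e], Or.inr ?_⟩
      intro p hp
      simp only [e, mem_map] at hp
      obtain ⟨j, _, rfl⟩ := hp
      rfl
    have h2 := hf e he
    simp only [blockG, mem_filter, mem_univ, true_and] at h2
    apply h2.2
    · exact mem_map.2 ⟨(i, _), mem_map.2 ⟨i, mem_univ _, rfl⟩, rfl⟩
    · exact mem_map.2 ⟨(j, _), mem_map.2 ⟨j, mem_univ _, rfl⟩, rfl⟩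
  let i0 := c (f (⟨0, hr0⟩, ⟨0, hk0⟩))
  have h4 : ∀ p, c (f p) = i0 := by
    rintro ⟨i, a⟩
    rw [h1 i a ⟨0, hk0⟩, h3 i ⟨0, hr0⟩]
  have h5 := hc i0
  have h6 : ((univ : Finset (Fin r × Fin k)).map f) ⊆ univ.filter fun v => c v = i0 := by
    intro v hv
    obtain ⟨p, _, rfl⟩ := mem_map.1 hv
    simp [h4 p]
  have h7 := card_le_card h6
  simp at h7
  omega

lemma blockG_sat {n r k : ℕ} (hr : 2 ≤ r) (hk : r ≤ k) {ι : Type} [DecidableEq ι]
    (c : Fin n → ι) (hc1 : ∀ i, (univ.filter fun v => c v = i).card < r * k)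
    (hc2 : ∀ v, (r - 1) * k ≤ (univ.filter fun w => c w = c v).card) :
    Saturated r (Hrk r k) (blockG r c) := by
  refine ⟨?_, blockG_free hr hk c hc1, ?_⟩
  · intro e he
    simp only [blockG, mem_filter, mem_univ, true_and] at he
    exact he.1
  intro e hecard he
  have hk0 : 0 < k := by omega
  have hne : ∃ u ∈ e, ∃ v ∈ e, c u ≠ c v := by
    by_contra h
    push Not at h
    exact he (by simp only [blockG, mem_filter, mem_univ, true_and]; exact ⟨hecard, h⟩)
  -- enumerate the edge
  let x : Fin r ≃ e := (Fintype.equivFinOfCardEq (by simpa using hecard)).symm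
  have hxinj : Function.Injective fun i => (x i : Fin n) :=
    Subtype.val_injective.comp x.injective
  -- classes
  have key : ∀ b : ι, ∃ g : ({i : Fin r // c (x i) = b} × Fin k) → Fin n,
      Function.Injective g ∧ (∀ p, c (g p) = b) ∧ ∀ i, g (i, ⟨0, hk0⟩) = x i.1 := by
    intro b
    let S : Finset (Fin n) := (univ.filter fun i : Fin r => c (x i) = b).image fun i => (x i : Fin n)
    by_cases hS : (univ.filter fun i : Fin r => c (x i) = b) = ∅
    · have hemp : IsEmpty ({i : Fin r // c (x i) = b}) := by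
        constructor
        rintro ⟨i, hi⟩
        have : i ∈ (univ.filter fun i : Fin r => c (x i) = b) := by simp [hi]
        rw [hS] at this
        simp at this
      refine ⟨fun p => (hemp.false p.1).elim, ?_, ?_, ?_⟩
      · intro p; exact (hemp.false p.1).elim
      · intro p; exact (hemp.false p.1).elim
      · intro p; exact (hemp.false p).elim
    obtain ⟨i1, hi1⟩ := nonempty_iff_ne_empty.2 hS
    simp only [mem_filter, mem_univ, true_and] at hi1
    have hScard : S.card = (univ.filter fun i : Fin r => c (x i) = b).card :=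
      card_image_of_injective _ hxinj
    have hlt : (univ.filter fun i : Fin r => c (x i) = b).card ≤ r - 1 := by
      have : (univ.filter fun i : Fin r => c (x i) = b) ⊂ univ := by
        refine (ssubset_univ_iff).2 ?_
        intro hall
        obtain ⟨u, hu, v, hv, huv⟩ := hne
        apply huv
        have h1 : x.symm ⟨u, hu⟩ ∈ (univ.filter fun i : Fin r => c (x i) = b) := by
          rw [hall]; simp
        have h2 : x.symm ⟨v, hv⟩ ∈ (univ.filter fun i : Fin r => c (x i) = b) := by
          rw [hall]; simp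
        simp only [mem_filter, mem_univ, true_and, Equiv.apply_symm_apply] at h1 h2
        rw [h1, h2]
      have := card_lt_card this
      simp at this
      omega
    have hSsub : S ⊆ univ.filter fun w => c w = b := by
      intro v hv
      obtain ⟨i, hi, rfl⟩ := mem_image.1 hv
      simp only [mem_filter, mem_univ, true_and] at hi ⊢
      exact hi
    have hBcard : (univ.filter fun i : Fin r => c (x i) = b).card * k ≤
        (univ.filter fun w => c w = b).card := by
      have h1 := hc2 (x i1)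
      rw [hi1] at h1
      exact (Nat.mul_le_mul_right k hlt).trans h1
    have hScard2 : S.card ≤ (univ.filter fun i : Fin r => c (x i) = b).card * k := by
      rw [hScard]; exact Nat.le_mul_of_pos_right _ hk0
    obtain ⟨t, hSt, htB, htcard⟩ := exists_subsuperset_card_eq hSsub hScard2 hBcard
    have hcard : Fintype.card ({i : Fin r // c (x i) = b} × Fin k) = t.card := by
      rw [htcard, Fintype.card_prod, Fintype.card_subtype, Fintype.card_fin]
    let s0 : Finset ({i : Fin r // c (x i) = b} × Fin k) :=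
      univ.filter fun p => p.2 = ⟨0, hk0⟩
    obtain ⟨g, hg⟩ := Finset.exists_equiv_extend_of_card_eq (s := s0)
      (f := fun p => (x p.1.1 : Fin n)) hcard (by
        intro v hv
        obtain ⟨p, hp, rfl⟩ := mem_image.1 hv
        apply hSt
        exact mem_image.2 ⟨p.1.1, by simpa using p.1.2, rfl⟩) (by
        intro p hp q hq hpq
        simp only [s0, coe_filter, mem_univ, true_and, Set.mem_ofPred_eq] at hp hq
        have := hxinj hpq
        exact Prod.ext (Subtype.ext this) (by rw [hp, hq]))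
    refine ⟨fun p => (g p : Fin n), Subtype.val_injective.comp g.injective, ?_, ?_⟩
    · intro p
      have := htB (g p).2
      simpa using this
    · intro i
      exact hg (i, ⟨0, hk0⟩) (by simp [s0])
  choose g hginj hgc hg0 using key
  let F : Fin r × Fin k → Fin n := fun p => g (c (x p.1)) (⟨p.1, rfl⟩, p.2)
  have hFc : ∀ p, c (F p) = c (x p.1) := fun p => hgc _ _
  have hF0 : ∀ i, F (i, ⟨0, hk0⟩) = x i := fun i => hg0 _ _
  have hFinj : Function.Injective F := by
    rintro ⟨i, a⟩ ⟨j, b⟩ h
    have h1 : c (x i) = c (x j) := by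
      have := congrArg c h
      rwa [hFc, hFc] at this
    have h2 : ∀ (b' : ι) (hb' : c (x j) = b'),
        g (c (x j)) (⟨j, rfl⟩, b) = g b' (⟨j, hb'⟩, b) := by
      intro b' hb'
      subst hb'
      rfl
    have h3 : g (c (x i)) (⟨i, rfl⟩, a) = g (c (x i)) (⟨j, h1.symm⟩, b) := by
      rw [← h2 _ h1.symm]
      exact h
    have h4 := hginj _ h3
    simp only [Prod.mk.injEq, Subtype.mk.injEq] at h4
    exact Prod.ext h4.1 h4.2
  refine ⟨⟨F, hFinj⟩, ?_⟩
  intro e' he'
  simp only [Hrk, mem_filter, mem_univ, true_and] at he'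
  obtain ⟨hcard', h | h⟩ := he'
  · obtain ⟨i, hi⟩ := h
    apply mem_insert_of_mem
    simp only [blockG, mem_filter, mem_univ, true_and, card_map]
    refine ⟨hcard', ?_⟩
    intro u hu v hv
    obtain ⟨p, hp, rfl⟩ := mem_map.1 hu
    obtain ⟨q, hq, rfl⟩ := mem_map.1 hv
    simp only [Function.Embedding.coeFn_mk]
    rw [hFc, hFc, hi p hp, hi q hq]
  · have : e'.map ⟨F, hFinj⟩ = e := by
      apply eq_of_subset_of_card_le
      · intro v hv
        obtain ⟨⟨i, a⟩, hp, rfl⟩ := mem_map.1 hv
        have ha : a = ⟨0, hk0⟩ := Fin.ext (h _ hp)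
        subst ha
        simp only [Function.Embedding.coeFn_mk]
        rw [hF0]
        exact (x i).2
      · simp [hcard', hecard]
    rw [this]
    exact mem_insert_self _ _

/-! ### Counting -/

lemma blockG_card {n r : ℕ} (hr : 1 ≤ r) {m : ℕ} (c : Fin n → Fin m) (B : ℕ)
    (hB : ∀ i, (univ.filter fun v => c v = i).card ≤ B) : (blockG r c).card ≤ m * 2 ^ B := by
  have h1 : blockG r c ⊆ univ.biUnion fun i => (univ.filter fun v => c v = i).powerset := by
    intro e he
    simp only [blockG, mem_filter, mem_univ, true_and] at he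
    obtain ⟨v, hv⟩ : e.Nonempty := card_pos.1 (by omega)
    simp only [mem_biUnion, mem_univ, true_and, mem_powerset]
    refine ⟨c v, ?_⟩
    intro w hw
    simp only [mem_filter, mem_univ, true_and]
    exact he.2 w hw v hv
  calc (blockG r c).card ≤ _ := card_le_card h1
    _ ≤ ∑ i : Fin m, ((univ.filter fun v => c v = i).powerset).card := card_biUnion_le
    _ ≤ ∑ i : Fin m, 2 ^ B := by
        apply sum_le_sum
        intro i _
        rw [card_powerset]
        exact Nat.pow_le_pow_right (by norm_num) (hB i)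
    _ = m * 2 ^ B := by simp

/-- Classes modulo `m` of `Fin n` have size `⌊n/m⌋` or `⌊n/m⌋ + 1`. -/
lemma mod_class {n m : ℕ} (hm : 0 < m) (i : Fin m) :
    n / m ≤ (univ.filter fun v : Fin n => (⟨(v : ℕ) % m, Nat.mod_lt _ hm⟩ : Fin m) = i).card ∧
    (univ.filter fun v : Fin n => (⟨(v : ℕ) % m, Nat.mod_lt _ hm⟩ : Fin m) = i).card ≤
      n / m + 1 := by
  have h1 : (univ.filter fun v : Fin n => (⟨(v : ℕ) % m, Nat.mod_lt _ hm⟩ : Fin m) = i).card =
      ((range n).filter fun v => v % m = i).card := by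
    refine card_bij (fun v _ => (v : ℕ)) ?_ ?_ ?_
    · intro v hv
      simp only [mem_filter, mem_univ, true_and, mem_range, Fin.ext_iff] at hv ⊢
      exact ⟨v.2, hv⟩
    · intro a _ b _ h
      exact Fin.ext h
    · intro v hv
      simp only [mem_filter, mem_range] at hv
      exact ⟨⟨v, hv.1⟩, by simp [Fin.ext_iff, hv.2], rfl⟩
  rw [h1]
  have h2 : ((range n).filter fun v => v % m = i).card = n.count (fun v => v ≡ i [MOD m]) := by
    rw [Nat.count_eq_card_filter_range]
    congr 1
    ext v
    simp only [mem_filter, Nat.ModEq, Nat.mod_eq_of_lt i.2]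
  rw [h2, Nat.count_modEq_card _ hm]
  split_ifs <;> omega

/-- For `r ≥ 3`, `k ≥ r` the saturation number of `H_{r,k}` is linear in `n` for large `n`. -/
lemma sat_le {r k : ℕ} (hr : 3 ≤ r) (hk : r ≤ k) (n : ℕ)
    (hn : ((r - 1) * k) * ((r - 1) * k) ≤ n) :
    ∃ G : Finset (Finset (Fin n)), Saturated r (Hrk r k) G ∧ G.card = Sat r (Hrk r k) n ∧
      G.card ≤ 2 ^ ((r - 1) * k + 2) * n := by
  set q := (r - 1) * k with hq
  have hq1 : 1 ≤ q := by
    rw [hq]; exact Nat.mul_pos (by omega) (by omega)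
  have hqk : q + 2 < r * k := by
    obtain ⟨s, rfl⟩ : ∃ s, r = s + 1 := ⟨r - 1, by omega⟩
    rw [hq]
    simp only [Nat.add_sub_cancel]
    rw [Nat.add_mul]; omega
  set m := n / q with hm
  have hmq : q ≤ m := by
    rw [hm]; exact (Nat.le_div_iff_mul_le hq1).2 hn
  have hm0 : 0 < m := by omega
  have h1 : q ≤ n / m := by
    rw [Nat.le_div_iff_mul_le hm0, hm, Nat.mul_comm]
    exact Nat.div_mul_le_self n q
  have h2 : n / m ≤ q + 1 := by
    have h3 : n < m * q + q := by
      rw [hm]
      have := Nat.div_add_mod n q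
      have h4 := Nat.mod_lt n hq1
      nlinarith [Nat.mul_comm q (n / q)]
    have h4 : n / m < q + 2 := by
      rw [Nat.div_lt_iff_lt_mul hm0]
      nlinarith
    omega
  let c : Fin n → Fin m := fun v => ⟨(v : ℕ) % m, Nat.mod_lt _ hm0⟩
  have hc := fun i => mod_class (n := n) hm0 i
  have hle : ∀ i, (univ.filter fun v => c v = i).card ≤ q + 2 := fun i => by
    have := (hc i).2
    exact this.trans (by omega)
  have hsat : Saturated r (Hrk r k) (blockG r c) := by
    refine blockG_sat (by omega) hk c (fun i => (hle i).trans_lt hqk) ?_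
    intro v
    exact h1.trans (hc (c v)).1
  have hcard := blockG_card (r := r) (by omega) c (q + 2) hle
  obtain ⟨G, hG1, hG2⟩ := Nat.sInf_mem (s := {m | ∃ G : Finset (Finset (Fin n)),
    Saturated r (Hrk r k) G ∧ G.card = m}) ⟨_, _, hsat, rfl⟩
  refine ⟨G, hG1, hG2, ?_⟩
  calc G.card = Sat r (Hrk r k) n := hG2
    _ ≤ (blockG r c).card := Nat.sInf_le ⟨_, hsat, rfl⟩
    _ ≤ m * 2 ^ (q + 2) := hcard
    _ ≤ n * 2 ^ (q + 2) := Nat.mul_le_mul_right _ (Nat.div_le_self _ _)
    _ = 2 ^ (q + 2) * n := Nat.mul_comm _ _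

/-- **Main result.** Let `r ≥ 3` and `k ≥ r`.  Then, for all large `n`, an `H_{r,k}`-saturated
`r`-graph on `n` vertices with the minimum number `Sat(H_{r,k}, n)` of edges exists and has at
most a constant times `n` edges; in particular, `Sat(H_{r,k}, n) / n ^ (r - 1)` converges to a
finite limit (namely `0`) as `n → ∞`. -/
theorem result (r k : ℕ) (hr : 3 ≤ r) (hk : r ≤ k) :
    (∃ C : ℕ, ∀ᶠ n : ℕ in Filter.atTop, ∃ G : Finset (Finset (Fin n)),
      Saturated r (Hrk r k) G ∧ G.card = Sat r (Hrk r k) n ∧ G.card ≤ C * n) ∧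
      Filter.Tendsto (fun n : ℕ => (Sat r (Hrk r k) n : ℝ) / (n : ℝ) ^ (r - 1))
        Filter.atTop (nhds 0) := by
  have hex : ∀ᶠ n : ℕ in Filter.atTop, ∃ G : Finset (Finset (Fin n)),
      Saturated r (Hrk r k) G ∧ G.card = Sat r (Hrk r k) n ∧
        G.card ≤ 2 ^ ((r - 1) * k + 2) * n := by
    filter_upwards [Filter.eventually_ge_atTop (((r - 1) * k) * ((r - 1) * k))] with n hn
    exact sat_le hr hk n hn
  refine ⟨⟨_, hex⟩, ?_⟩
  have h0 : ∀ᶠ n : ℕ in Filter.atTop,
      Sat r (Hrk r k) n ≤ 2 ^ ((r - 1) * k + 2) * n := by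
    filter_upwards [hex] with n hn
    obtain ⟨G, _, h1, h2⟩ := hn
    rwa [← h1]
  have hlim : Filter.Tendsto (fun n : ℕ => (2 : ℝ) ^ ((r - 1) * k + 2) / (n : ℝ) ^ (r - 2))
      Filter.atTop (nhds 0) := by
    apply Filter.Tendsto.const_div_atTop
    exact (Filter.tendsto_pow_atTop (by omega)).comp tendsto_natCast_atTop_atTop
  refine squeeze_zero' (Filter.Eventually.of_forall fun n => by positivity) ?_ hlim
  filter_upwards [h0, Filter.eventually_ge_atTop 1] with n hn hn1
  have hnpos : (0 : ℝ) < n := by exact_mod_cast hn1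
  obtain ⟨s, rfl⟩ : ∃ s, r = s + 2 := ⟨r - 2, by omega⟩
  have h2 : s + 2 - 1 = s + 1 := by omega
  have h3 : s + 2 - 2 = s := by omega
  rw [div_le_div_iff₀ (by positivity) (by positivity)]
  have h4 : ((Sat (s + 2) (Hrk (s + 2) k) n : ℕ) : ℝ) ≤
      (2 : ℝ) ^ ((s + 2 - 1) * k + 2) * n := by
    exact_mod_cast hn
  calc ((Sat (s + 2) (Hrk (s + 2) k) n : ℕ) : ℝ) * (n : ℝ) ^ (s + 2 - 2)
      ≤ ((2 : ℝ) ^ ((s + 2 - 1) * k + 2) * n) * (n : ℝ) ^ (s + 2 - 2) := by gcongr
    _ = (2 : ℝ) ^ ((s + 2 - 1) * k + 2) * (n : ℝ) ^ (s + 2 - 1) := by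
      rw [h2, h3]; ring

end Pool.Agent.Results.MP_578b47_co.LinearSat
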